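import Pool.Agent.P8H10.ET.StmE
import Pool.Agent.P8H20.ET.Sum

/-! Project ET (helper10), package SUM2, adapted from the package SUM by helper20. -/

set_option autoImplicit false

open Filter Topology

namespace Pool.Agent.P8H88.ET

open Pool.Agent.P8H10.ET
open Pool.Agent.P8H20.ET (eqv eqv_apply ff siv_neg ff_summable siv_zero)

/-- the shear -/
def shear (u₁ : ℤ) (v : ℕ) : ℤ × ℤ ≃ ℤ × ℤ where
  toFun p := (p.1 - p.2 / v * u₁, p.2)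
  invFun p := (p.1 + p.2 / v * u₁, p.2)
  left_inv p := by
    refine Prod.ext ?_ rfl
    show p.1 - p.2 / v * u₁ + p.2 / v * u₁ = p.1
    ring
  right_inv p := by
    refine Prod.ext ?_ rfl
    show p.1 + p.2 / v * u₁ - p.2 / v * u₁ = p.1
    ring

/-- representatives of the classes -/
noncomputable def eqv2 (u₁ : ℤ) (u v : ℕ) [NeZero u] [NeZero v] :
    (Fin u × Fin v) × (ℤ × ℤ) ≃ ℤ × ℤ := (eqv u v).trans (shear u₁ v)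

lemma eqv2_apply (u₁ : ℤ) (u v : ℕ) [NeZero u] [NeZero v] (i : Fin u) (j : Fin v) (a b : ℤ) :
    eqv2 u₁ u v ((i, j), (a, b)) = (a * u + (i : ℕ) - b * u₁, b * v + (j : ℕ)) := by
  have h1 : eqv2 u₁ u v ((i, j), (a, b)) = shear u₁ v (eqv u v ((i, j), (a, b))) := rfl
  rw [h1, eqv_apply]
  have hv : (v : ℤ) ≠ 0 := by exact_mod_cast (NeZero.ne v)
  have h2 : (b * v + ((j : ℕ) : ℤ)) / (v : ℤ) = b := by
    rw [add_comm, Int.add_mul_ediv_right _ _ hv, Int.ediv_eq_zero_of_lt (by positivity)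
      (by exact_mod_cast j.2), zero_add]
  show ((a * u + (i : ℕ)) - (b * v + ((j : ℕ) : ℤ)) / (v : ℤ) * u₁, b * v + ((j : ℕ) : ℤ)) = _
  rw [h2]

lemma term2 (L L' : PeriodPair) (u₁ : ℤ) (u v : ℕ) [NeZero u] [NeZero v] (h1 : L'.ω₁ = L.ω₁)
    (h2 : L'.ω₂ = (u₁ * L.ω₁ + u * L.ω₂) / v) (r : ℕ) (i : Fin u) (j : Fin v) (p : ℤ × ℤ) :
    ff L' r 0 (eqv2 u₁ u v ((i, j), p)) = ((u : ℂ) ^ r)⁻¹ *
      ff L r ((((i : ℕ) : ℂ) * L.ω₁ + ((j : ℕ) : ℂ) * ((u₁ * L.ω₁ + u * L.ω₂) / v)) / u) p := by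
  have hu' : (u : ℂ) ≠ 0 := by exact_mod_cast (NeZero.ne u)
  have hv' : (v : ℂ) ≠ 0 := by exact_mod_cast (NeZero.ne v)
  obtain ⟨a, b⟩ := p
  rw [eqv2_apply, ff, ff, ← mul_inv, ← mul_pow]
  have key : (((a * (u : ℤ) + ((i : ℕ) : ℤ) - b * u₁ : ℤ) : ℂ) * L'.ω₁ +
      ((b * (v : ℤ) + ((j : ℕ) : ℤ) : ℤ) : ℂ) * L'.ω₂ + 0)
      = (u : ℂ) * ((a : ℂ) * L.ω₁ + (b : ℂ) * L.ω₂ +
        (((i : ℕ) : ℂ) * L.ω₁ + ((j : ℕ) : ℂ) * ((u₁ * L.ω₁ + u * L.ω₂) / v)) / u) := by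
    rw [h1, h2]
    push_cast
    field_simp
    ring
  exact congrArg (fun z : ℂ => (z ^ r)⁻¹) key

lemma Gsum2 (L' : PeriodPair) (u₁ : ℤ) (u v : ℕ) [NeZero u] [NeZero v] (r : ℕ) (hr : 2 < r) :
    L'.G r = ∑ i : Fin u, ∑ j : Fin v, ∑' p : ℤ × ℤ, ff L' r 0 (eqv2 u₁ u v ((i, j), p)) := by
  have hS2 : Summable (fun q => ff L' r 0 (eqv2 u₁ u v q)) :=
    (ff_summable L' r hr).comp_injective (eqv2 u₁ u v).injective
  have h3 : ∑' q, ff L' r 0 (eqv2 u₁ u v q)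
      = ∑' ij : Fin u × Fin v, ∑' p : ℤ × ℤ, ff L' r 0 (eqv2 u₁ u v (ij, p)) := hS2.tsum_prod
  rw [siv_zero, ← (eqv2 u₁ u v).tsum_eq (ff L' r 0), h3, tsum_fintype, Fintype.sum_prod_type]

lemma tterm2 (L L' : PeriodPair) (u₁ : ℤ) (u v : ℕ) [NeZero u] [NeZero v] (h1 : L'.ω₁ = L.ω₁)
    (h2 : L'.ω₂ = (u₁ * L.ω₁ + u * L.ω₂) / v) (r : ℕ) (heven : Even r) (i : Fin u) (j : Fin v) :
    ∑' p : ℤ × ℤ, ff L' r 0 (eqv2 u₁ u v ((i, j), p)) = ((u : ℂ) ^ r)⁻¹ *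
      L.sumInvPow ((((i : ℕ) : ℂ) * L.ω₁ + ((j : ℕ) : ℂ) * ((u₁ * L.ω₁ + u * L.ω₂) / v)) / u)
        r := by
  rw [siv_neg L r heven, ← tsum_mul_left]
  exact tsum_congr fun p => term2 L L' u₁ u v h1 h2 r i j p

/-- **SUM2** -/
theorem sum2 : S_SUM2 := by
  intro L L' u₁ u v hu hv h1 h2 r hr heven
  have : NeZero u := ⟨hu.ne'⟩
  have : NeZero v := ⟨hv.ne'⟩
  have hu' : (u : ℂ) ^ r ≠ 0 := pow_ne_zero _ (by exact_mod_cast hu.ne')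
  rw [Gsum2 L' u₁ u v r hr, Finset.mul_sum,
    Finset.sum_range (fun i => ∑ j ∈ Finset.range v,
      L.sumInvPow (((i : ℂ) * L.ω₁ + (j : ℂ) * ((u₁ * L.ω₁ + u * L.ω₂) / v)) / u) r)]
  refine Finset.sum_congr rfl fun i _ => ?_
  rw [Finset.mul_sum, Finset.sum_range (fun j =>
      L.sumInvPow ((((i : ℕ) : ℂ) * L.ω₁ + (j : ℂ) * ((u₁ * L.ω₁ + u * L.ω₂) / v)) / u) r)]
  refine Finset.sum_congr rfl fun j _ => ?_
  rw [tterm2 L L' u₁ u v h1 h2 r heven i j, ← mul_assoc, mul_inv_cancel₀ hu', one_mul]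

end Pool.Agent.P8H88.ET
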