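import Pool.Agent.P8H10.ET.StmE
import Pool.Agent.P8H22.ET.Tra

/-! Project ET (helper10), package TRA2: the transfer principle for two real parameters. Adapted from the
package TRA by helper22. -/

set_option autoImplicit false

open Filter Topology Pool.Agent.R347.LW Pool.Agent.P8H10.ET
open Pool.Agent.P8H22.ET (RB_mono tow_pos' near lipschitz_near)

namespace Pool.Agent.P8H88.ET

theorem near2 {q : ℕ → ℕ} (hq : ∀ k, 2 ≤ q k) {a b : ℝ} (ha : RAppr q a) (hb : RAppr q b) :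
    ∃ H : ℕ, ∀ (κ : ℕ) (A : ℝ), 0 ≤ A → ∀ ε : ℝ, 0 < ε →
    ∃ k₀ : ℕ, ∀ k ≥ k₀, ∃ (u₁ u₂ : ℤ) (v : ℕ), 1 ≤ v ∧ v ≤ tow H (q k) ∧
      |u₁| ≤ (tow H (q k) : ℕ) ∧ |u₂| ≤ (tow H (q k) : ℕ) ∧
      |a - u₁ / v| < ε ∧ |b - u₂ / v| < ε ∧
      A * (|a - u₁ / v| + |b - u₂ / v|) ≤ ((tow κ (q k) : ℕ) : ℝ)⁻¹ := by
  obtain ⟨H1, h1⟩ := near hq ha
  obtain ⟨H2, h2⟩ := near hq hb
  obtain ⟨H', hH'⟩ : ∃ H', H' = max H1 H2 := ⟨_, rfl⟩
  refine ⟨H' + 2, fun κ A hA ε hε => ?_⟩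
  obtain ⟨k1, hk1⟩ := h1 κ (2 * A) (by positivity) ε hε
  obtain ⟨k2, hk2⟩ := h2 κ (2 * A) (by positivity) ε hε
  refine ⟨max k1 k2, fun k hk => ?_⟩
  obtain ⟨u, v, hv1, hv2, hu, e1, e2⟩ := hk1 k ((le_max_left _ _).trans hk)
  obtain ⟨u', v', hv1', hv2', hu', e1', e2'⟩ := hk2 k ((le_max_right _ _).trans hk)
  have t1 : tow H1 (q k) ≤ tow H' (q k) := tow_mono_left (by rw [hH']; exact le_max_left _ _) _
  have t2 : tow H2 (q k) ≤ tow H' (q k) := tow_mono_left (by rw [hH']; exact le_max_right _ _) _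
  have t3 := tow_sq_lt H' (q k)
  have hv0 : (v : ℝ) ≠ 0 := by
    have : 0 < v := hv1
    exact_mod_cast this.ne'
  have hv0' : (v' : ℝ) ≠ 0 := by
    have : 0 < v' := hv1'
    exact_mod_cast this.ne'
  have f1 : ((u * v' : ℤ) : ℝ) / ((v * v' : ℕ) : ℝ) = u / v := by
    push_cast
    field_simp
  have f2 : ((u' * v : ℤ) : ℝ) / ((v * v' : ℕ) : ℝ) = u' / v' := by
    push_cast
    field_simp
  refine ⟨u * v', u' * v, v * v', Nat.mul_pos hv1 hv1', ?_, ?_, ?_, ?_, ?_, ?_⟩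
  · exact (Nat.mul_le_mul (hv2.trans t1) (hv2'.trans t2)).trans t3.le
  · rw [abs_mul, Nat.abs_cast]
    have g1 : |u| ≤ ((tow H' (q k) : ℕ) : ℤ) := hu.trans (by exact_mod_cast t1)
    have g2 : (v' : ℤ) ≤ ((tow H' (q k) : ℕ) : ℤ) := by exact_mod_cast hv2'.trans t2
    have g3 : ((tow H' (q k) : ℕ) : ℤ) * ((tow H' (q k) : ℕ) : ℤ) ≤
        ((tow (H' + 2) (q k) : ℕ) : ℤ) := by exact_mod_cast t3.le
    exact (mul_le_mul g1 g2 (by positivity) (by positivity)).trans g3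
  · rw [abs_mul, Nat.abs_cast]
    have g1 : |u'| ≤ ((tow H' (q k) : ℕ) : ℤ) := hu'.trans (by exact_mod_cast t2)
    have g2 : (v : ℤ) ≤ ((tow H' (q k) : ℕ) : ℤ) := by exact_mod_cast hv2.trans t1
    have g3 : ((tow H' (q k) : ℕ) : ℤ) * ((tow H' (q k) : ℕ) : ℤ) ≤
        ((tow (H' + 2) (q k) : ℕ) : ℤ) := by exact_mod_cast t3.le
    exact (mul_le_mul g1 g2 (by positivity) (by positivity)).trans g3
  · rw [f1]
    exact e1
  · rw [f2]
    exact e1'
  · rw [f1, f2]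
    linarith

theorem dist_pt (a b : ℝ) (τ₀ : ℂ) (u₁ u₂ : ℤ) (v : ℕ) (hv : 1 ≤ v) :
    ‖((u₁ : ℂ) + u₂ * τ₀) / (v : ℂ) - ((a : ℂ) + b * τ₀)‖ ≤
      (1 + ‖τ₀‖) * (|a - u₁ / v| + |b - u₂ / v|) := by
  have hv0 : (v : ℂ) ≠ 0 := by
    have : 0 < v := hv
    exact_mod_cast this.ne'
  have h : ((u₁ : ℂ) + u₂ * τ₀) / (v : ℂ) - ((a : ℂ) + b * τ₀) =
      -(((a - u₁ / v : ℝ) : ℂ) + ((b - u₂ / v : ℝ) : ℂ) * τ₀) := by
    push_cast
    field_simp
    ring
  rw [h, norm_neg]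
  refine (norm_add_le _ _).trans ?_
  rw [norm_mul, Complex.norm_real, Complex.norm_real, Real.norm_eq_abs, Real.norm_eq_abs]
  have h1 : 0 ≤ |a - u₁ / v| := abs_nonneg _
  have h2 : 0 ≤ |b - u₂ / v| := abs_nonneg _
  have h3 : 0 ≤ ‖τ₀‖ := norm_nonneg _
  nlinarith [mul_nonneg h3 h1]

theorem tra2 (hCLOS : S_CLOS) : S_TRA2 := by
  intro q hq a b ha hb hirr τ₀ hτ n f hf ⟨h, δ, hδ, hRB⟩
  obtain ⟨H, hH⟩ := near2 hq ha hb
  obtain ⟨C, δ', hC, hδ', hlip⟩ := lipschitz_near f ((a : ℂ) + b * τ₀) hf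
  have hC0 : 0 ≤ C := by linarith
  obtain ⟨M, hM⟩ : ∃ M : ℝ, M = 1 + ‖τ₀‖ := ⟨_, rfl⟩
  have hM1 : 1 ≤ M := by
    rw [hM]
    have := norm_nonneg τ₀
    linarith
  have hM0 : 0 < M := by linarith
  have hY2 : ∀ k, 2 ≤ tow H (q k) := fun k => by
    have := le_tow H (q k)
    have := hq k
    omega
  refine ⟨fun i => ⟨h + H, fun κ => ?_⟩, fun P hP => ?_⟩
  · obtain ⟨k₀, hk₀⟩ := hH κ (C * M) (by positivity) (min δ (δ' / (2 * M)))
      (lt_min hδ (by positivity))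
    refine ⟨k₀, fun k hk => ?_⟩
    obtain ⟨u₁, u₂, v, hv1, hv2, hu1, hu2, h1, h1', h2⟩ := hk₀ k hk
    refine ⟨f i (((u₁ : ℂ) + u₂ * τ₀) / v), ?_, ?_⟩
    · have h3 := hRB (tow H (q k)) (hY2 k) u₁ u₂ v hu1 hu2 hv1 hv2
        (lt_of_lt_of_le h1 (min_le_left _ _)) (lt_of_lt_of_le h1' (min_le_left _ _)) i
      rwa [tow_tow] at h3
    · have hd := dist_pt a b τ₀ u₁ u₂ v hv1
      rw [← hM] at hd
      have h3 : dist (((u₁ : ℂ) + u₂ * τ₀) / v) ((a : ℂ) + b * τ₀) < δ' := by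
        rw [dist_eq_norm]
        refine hd.trans_lt ?_
        have g1 : |a - u₁ / v| < δ' / (2 * M) := lt_of_lt_of_le h1 (min_le_right _ _)
        have g2 : |b - u₂ / v| < δ' / (2 * M) := lt_of_lt_of_le h1' (min_le_right _ _)
        have g3 : M * (δ' / (2 * M) + δ' / (2 * M)) = δ' := by
          field_simp
          ring
        calc M * (|a - u₁ / v| + |b - u₂ / v|) < M * (δ' / (2 * M) + δ' / (2 * M)) :=
              mul_lt_mul_of_pos_left (add_lt_add g1 g2) hM0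
          _ = δ' := g3
      have h4 := hlip _ h3 i
      rw [norm_sub_rev]
      refine h4.trans (le_trans ?_ h2)
      rw [mul_assoc]
      exact mul_le_mul_of_nonneg_left hd hC0
  · obtain ⟨hc, hclos⟩ := hCLOS
    obtain ⟨κ₀, hκ₀⟩ := Pool.Agent.P8H4.KM.liou
    obtain ⟨T, C₁, hC₁, hlip₁⟩ := lip (fun i => f i ((a : ℂ) + b * τ₀)) P
    obtain ⟨m, hm⟩ : ∃ m : ℕ, m = n + P.totalDegree + (∑ d ∈ P.support, |P.coeff d|).natAbs :=
      ⟨_, rfl⟩
    rw [Metric.nhdsWithin_basis_ball.frequently_iff]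
    intro ε hε
    obtain ⟨k₀, hk₀⟩ := hH (κ₀ + (hc + (h + H + m)) + 1) ((C₁ + 1) * (C * M)) (by positivity)
      (min (ε / (2 * M)) (min δ (min (δ' / (2 * M)) (1 / C / (2 * M)))))
      (lt_min (by positivity) (lt_min hδ (lt_min (by positivity) (by positivity))))
    obtain ⟨u₁, u₂, v, hv1, hv2, hu1, hu2, h1, h1', h2⟩ := hk₀ k₀ le_rfl
    obtain ⟨s, hs⟩ : ∃ s : ℝ, s = |a - u₁ / v| + |b - u₂ / v| := ⟨_, rfl⟩
    have hs0 : 0 ≤ s := by rw [hs]; positivity
    have hd := dist_pt a b τ₀ u₁ u₂ v hv1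
    rw [← hM, ← hs] at hd
    rw [← hs] at h2
    have hsum : ∀ η : ℝ, |a - u₁ / v| < η / (2 * M) → |b - u₂ / v| < η / (2 * M) → M * s < η := by
      intro η g1 g2
      have g3 : M * (η / (2 * M) + η / (2 * M)) = η := by
        field_simp
        ring
      rw [hs]
      calc M * (|a - u₁ / v| + |b - u₂ / v|) < M * (η / (2 * M) + η / (2 * M)) :=
            mul_lt_mul_of_pos_left (add_lt_add g1 g2) hM0
        _ = η := g3
    have hz1 : M * s < ε := hsum ε (lt_of_lt_of_le h1 (min_le_left _ _))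
      (lt_of_lt_of_le h1' (min_le_left _ _))
    have hz2 : |a - u₁ / v| < δ :=
      lt_of_lt_of_le h1 ((min_le_right _ _).trans (min_le_left _ _))
    have hz2' : |b - u₂ / v| < δ :=
      lt_of_lt_of_le h1' ((min_le_right _ _).trans (min_le_left _ _))
    have hz3 : M * s < δ' := hsum δ'
      (lt_of_lt_of_le h1 ((min_le_right _ _).trans ((min_le_right _ _).trans (min_le_left _ _))))
      (lt_of_lt_of_le h1' ((min_le_right _ _).trans ((min_le_right _ _).trans (min_le_left _ _))))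
    have hz4 : M * s < 1 / C := hsum (1 / C)
      (lt_of_lt_of_le h1 ((min_le_right _ _).trans ((min_le_right _ _).trans (min_le_right _ _))))
      (lt_of_lt_of_le h1' ((min_le_right _ _).trans ((min_le_right _ _).trans (min_le_right _ _))))
    have hd3 : dist (((u₁ : ℂ) + u₂ * τ₀) / v) ((a : ℂ) + b * τ₀) < δ' := by
      rw [dist_eq_norm]
      exact hd.trans_lt hz3
    refine ⟨((u₁ : ℂ) + u₂ * τ₀) / v, ⟨?_, ?_⟩, ?_⟩
    · rw [Metric.mem_ball, dist_eq_norm]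
      exact hd.trans_lt hz1
    · intro h0
      have h3 : ((u₁ : ℂ) + u₂ * τ₀) / v = (a : ℂ) + b * τ₀ := h0
      have hv0 : (v : ℂ) ≠ 0 := by
        have : 0 < v := hv1
        exact_mod_cast this.ne'
      have h4 : ((a - u₁ / v : ℝ) : ℂ) + ((b - u₂ / v : ℝ) : ℂ) * τ₀ = 0 := by
        have : ((a - u₁ / v : ℝ) : ℂ) + ((b - u₂ / v : ℝ) : ℂ) * τ₀ =
            ((a : ℂ) + b * τ₀) - ((u₁ : ℂ) + u₂ * τ₀) / v := by
          push_cast
          field_simp
          ring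
        rw [this, ← h3, sub_self]
      have h5 := congrArg Complex.im h4
      rw [Complex.add_im, Complex.ofReal_im, Complex.im_ofReal_mul, zero_add, Complex.zero_im] at h5
      have h6 : b - u₂ / v = 0 := (mul_eq_zero.1 h5).resolve_right hτ
      have h7 := congrArg Complex.re h4
      rw [h6, Complex.ofReal_zero, zero_mul, add_zero, Complex.ofReal_re, Complex.zero_re] at h7
      rcases hirr with hirr | hirr
      · apply hirr
        refine ⟨(u₁ : ℚ) / v, ?_⟩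
        push_cast
        linarith
      · apply hirr
        refine ⟨(u₂ : ℚ) / v, ?_⟩
        push_cast
        linarith
    · by_contra hne
      -- the size
      have hN2 : 2 ≤ tow (h + H + m) (q k₀) := by
        have := le_tow (h + H + m) (q k₀)
        have := hq k₀
        omega
      have hNm : m ≤ tow (h + H + m) (q k₀) := by
        have := le_tow (h + H + m) (q k₀)
        omega
      have h3 : ∀ i, RB (tow (h + H + m) (q k₀)) (tow (h + H + m) (q k₀))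
          (f i (((u₁ : ℂ) + u₂ * τ₀) / v)) := by
        intro i
        have h4 := hRB (tow H (q k₀)) (hY2 k₀) u₁ u₂ v hu1 hu2 hv1 hv2 hz2 hz2' i
        rw [tow_tow] at h4
        have h5 : tow (h + H) (q k₀) ≤ tow (h + H + m) (q k₀) := tow_mono_left (by omega) _
        exact RB_mono h4 h5 h5
      have h4 : Sz (tow (h + H + m) (q k₀)) P := by
        refine ⟨by omega, ?_⟩
        have h5 : ∑ d ∈ P.support, |P.coeff d| ≤ ((∑ d ∈ P.support, |P.coeff d|).natAbs : ℤ) :=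
          Int.le_natAbs
        have h6 : (∑ d ∈ P.support, |P.coeff d|).natAbs ≤ tow (h + H + m) (q k₀) := by omega
        exact h5.trans (by exact_mod_cast h6)
      have h5 := hclos _ hN2 n (fun i => f i (((u₁ : ℂ) + u₂ * τ₀) / v)) P (by omega) h3 h4
      rw [tow_tow] at h5
      have h6 : 2 ≤ tow (hc + (h + H + m)) (q k₀) := by
        have := le_tow (hc + (h + H + m)) (q k₀)
        have := hq k₀
        omega
      have h7 := hκ₀ _ h6 _ h5 hne
      rw [tow_tow] at h7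
      have h8 := hlip₁ (fun i => f i (((u₁ : ℂ) + u₂ * τ₀) / v)) (C * (M * s)) (by positivity)
        (by
          have := mul_le_mul_of_nonneg_left hz4.le hC0
          rwa [mul_one_div_cancel (by linarith)] at this)
        (fun i _ => by
          have := hlip _ hd3 i
          rw [norm_sub_rev]
          exact this.trans (mul_le_mul_of_nonneg_left hd hC0))
      rw [hP, zero_sub, norm_neg] at h8
      have h9 : C₁ * (C * (M * s)) ≤ (C₁ + 1) * (C * M) * s := by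
        have : 0 ≤ C * (M * s) := by positivity
        nlinarith
      have h10 := (h7.trans (h8.trans h9)).trans h2
      have h11 : tow (κ₀ + (hc + (h + H + m))) (q k₀) < tow (κ₀ + (hc + (h + H + m)) + 1) (q k₀) :=
        tow_lt_succ _ _
      have h12 : ((tow (κ₀ + (hc + (h + H + m)) + 1) (q k₀) : ℕ) : ℝ)⁻¹ <
          ((tow (κ₀ + (hc + (h + H + m))) (q k₀) : ℕ) : ℝ)⁻¹ := by
        apply inv_strictAnti₀ (tow_pos' hq _ _)
        exact_mod_cast h11
      linarith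

end Pool.Agent.P8H88.ET
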